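import Pool.Agent.Helper7.T3P.Size
import Pool.Agent.Helper8.Occ.Main

/-!
Bounds for the parameters of the closure theorem.
-/

namespace Pool.Agent.Helper7.Occ

open Pool.Agent.Helper8.Occ

lemma le_step (κ Δ M : ℕ) : M ≤ step κ Δ M := by
  unfold step
  have h1 : M + Δ + 1 ≤ (M + Δ + 1) ^ (Δ + 2) := Nat.le_self_pow (by omega) _
  calc M ≤ 1 * (M + Δ + 1) ^ (Δ + 2) := by omega
    _ ≤ _ := Nat.mul_le_mul_right _ (by omega)

lemma step_mono (κ Δ : ℕ) : Monotone (step κ Δ) := by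
  intro M M' h
  unfold step
  exact Nat.mul_le_mul_left _ (Nat.pow_le_pow_left (by omega) _)

lemma nRows_le_step {κ Δ M m : ℕ} (h : m + 1 ≤ Δ) : nRows (κ + 1) M m ≤ step κ Δ M := by
  unfold nRows step
  have h1 : (M + m + 1) ^ (m + 1) ≤ (M + Δ + 1) ^ Δ :=
    (Nat.pow_le_pow_left (by omega) _).trans (Nat.pow_le_pow_right (by omega) h)
  have h2 : 1 ≤ (κ + 1) * (M + Δ + 1) ^ Δ := Nat.mul_pos (by omega) (Nat.pow_pos (by omega))
  calc M * ((M + m + 1) ^ (m + 1) * ((M + m + 1) * (κ + 1))) + 1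
      ≤ M * ((M + Δ + 1) ^ Δ * ((M + Δ + 1) * (κ + 1))) + 1 := by
        refine Nat.succ_le_succ (Nat.mul_le_mul_left _ (Nat.mul_le_mul h1
          (Nat.mul_le_mul_right _ (by omega))))
    _ = ((κ + 1) * (M + Δ + 1) ^ Δ) * (M * (M + Δ + 1)) + 1 := by ring
    _ ≤ ((κ + 1) * (M + Δ + 1) ^ Δ) * (M * (M + Δ + 1)) + (κ + 1) * (M + Δ + 1) ^ Δ := by omega
    _ = ((κ + 1) * (M + Δ + 1) ^ Δ) * (M * (M + Δ + 1) + 1) := by ring
    _ ≤ ((κ + 1) * (M + Δ + 1) ^ Δ) * ((M + Δ + 1) ^ 2) := by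
        refine Nat.mul_le_mul_left _ ?_
        nlinarith [Nat.zero_le M, Nat.zero_le Δ]
    _ = (κ + 1) * (M + Δ + 1) ^ (Δ + 2) := by ring

lemma le_iterate (κ Δ D M : ℕ) : M ≤ (step κ Δ)^[D] M := by
  induction D generalizing M with
  | zero => exact le_rfl
  | succ D ih =>
    rw [Function.iterate_succ_apply]
    exact (le_step κ Δ M).trans (ih _)

lemma cN_le {κ Δ : ℕ} : ∀ (D M m : ℕ), m + D ≤ Δ → cN (κ + 1) D M m ≤ (step κ Δ)^[D] M
  | 0, _, _, _ => le_rfl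
  | D + 1, M, m, h => by
    unfold cN
    rw [Function.iterate_succ_apply]
    exact (cN_le D _ _ (by omega)).trans
      (((step_mono κ Δ).iterate D) (nRows_le_step (by omega)))

lemma cC_le {κ Δ : ℕ} : ∀ (D M m : ℕ), m + D ≤ Δ → cC (κ + 1) D M m ≤ D * (step κ Δ)^[D] M
  | 0, _, _, _ => by simp [cC]
  | D + 1, M, m, h => by
    unfold cC
    rw [Function.iterate_succ_apply, Nat.add_mul, one_mul]
    refine Nat.add_le_add ?_ ((nRows_le_step (by omega)).trans (le_iterate _ _ _ _))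
    exact (cC_le D _ _ (by omega)).trans (Nat.mul_le_mul_left _
      (((step_mono κ Δ).iterate D) (nRows_le_step (by omega))))

lemma tN_le (κ k t₀ Δ : ℕ) : tN κ k t₀ Δ ≤ ((k + 1) * κ + 1) ^ Δ * (t₀ + 1) := by
  induction Δ with
  | zero => simp [tN]
  | succ Δ ih =>
    unfold tN
    have h1 : 1 ≤ ((k + 1) * κ + 1) ^ Δ * (t₀ + 1) :=
      Nat.mul_pos (Nat.pow_pos (by omega)) (by omega)
    calc (k + 1) * κ * tN κ k t₀ Δ + 1
        ≤ (k + 1) * κ * (((k + 1) * κ + 1) ^ Δ * (t₀ + 1)) +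
          ((k + 1) * κ + 1) ^ Δ * (t₀ + 1) := Nat.add_le_add (Nat.mul_le_mul_left _ ih) h1
      _ = _ := by ring

lemma start_le (κ k t₀ Δ : ℕ) :
    (k + 1) * tN κ k t₀ Δ ≤ (k + 1) * ((k + 1) * κ + 1) ^ Δ * (t₀ + 1) := by
  rw [Nat.mul_assoc]
  exact Nat.mul_le_mul_left _ (tN_le κ k t₀ Δ)

/-- **the order of the minors** -/
theorem minors_le (κ k t₀ Δ : ℕ) : minors κ k t₀ Δ ≤ order k κ Δ t₀ := by
  unfold minors order
  exact (cN_le Δ _ 0 (by omega)).trans (((step_mono κ Δ).iterate Δ) (start_le κ k t₀ Δ))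

/-- **the number of added seeds** -/
theorem extra_le (κ k t₀ Δ : ℕ) : extra κ k t₀ Δ ≤ (Δ + 1) * order k κ Δ t₀ + k := by
  unfold extra order
  have h1 := (cC_le (κ := κ) (Δ := Δ) Δ ((k + 1) * tN κ k t₀ Δ) 0 (by omega)).trans
    (Nat.mul_le_mul_left _ (((step_mono κ Δ).iterate Δ) (start_le κ k t₀ Δ)))
  have h2 := (start_le κ k t₀ Δ).trans (le_iterate κ Δ Δ _)
  rw [Nat.succ_mul Δ, Nat.add_assoc]
  exact Nat.add_le_add h1 (Nat.add_le_add_right h2 _)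

end Pool.Agent.Helper7.Occ
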