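import Pool.Agent.Helper7.T3P.Size
import Pool.Agent.Helper8.Loc.Defs
import Pool.Agent.Helper8.Occ.Defs

/-!
Definitions used in the statement.
-/

namespace Pool.Agent.Helper7.SumProdOcc

open Pool.Agent.Helper8 Pool.Agent.Helper8.Occ

/-- `g` is computed by a formula of depth `Δ` with gates of parameter `κ`, whose leaves are
polynomials computed by programs of width `w` that read every variable in at most `k` layers, with
`s`-local layers of any degree. -/
def Factor (n κ Δ w k s : ℕ) (g : MvPolynomial (Fin n) ℚ) : Prop :=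
  OccFormula κ (fun h => ∃ d, LocalABP.Computes w k s d n h) Δ g

/-- The order of the minors. -/
def minor (K κ Δ w k s : ℕ) : ℕ := Helper7.Occ.order K κ Δ ((K * k + 1) * w ^ 2 + K * k * s)

/-- The number of seeds. -/
def seeds (K κ Δ w k s : ℕ) : ℕ :=
  LocalABP.exponent
      ((minor K κ Δ w k s).factorial * (2 ^ (Δ + 1) * minor K κ Δ w k s * (w + 1) + 1))
      ((minor K κ Δ w k s).factorial * (minor K κ Δ w k s * (k + 1))) (s + 1) +
    (Δ + 1) * minor K κ Δ w k s + K

end Pool.Agent.Helper7.SumProdOcc
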