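import Pool.Agent.Helper7.T3P.Leaf
import Pool.Agent.Helper7.T3P.Bound
import Pool.Agent.Helper7.T3P.Defs
import Pool.Agent.Helper8.T2.Final
import Pool.Agent.Helper5.V.Post

/-!
The hitting theorem for sums of products of formulas over programs of constant width.
-/

set_option linter.unusedSectionVars false
set_option linter.unusedSimpArgs false

open MvPolynomial

namespace Pool.Agent.Helper7.T3P

open Pool.Agent.Helper8 Pool.Agent.Helper8.Occ SumProdOcc VF T3
open Pool.Agent.Helper7.Occ (order minors_le extra_le)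

variable {n : ℕ}

lemma leaf_eq (w k s : ℕ) :
    (fun h : MvPolynomial (Fin n) ℚ => ∃ d, LocalABP.Computes w k s d n h) =
      fun h => h ∈ Prog w k s n := by
  funext h
  exact propext ⟨fun ⟨d, hd⟩ => ⟨d, Comp.of_computes hd⟩, fun ⟨d, hd⟩ => ⟨d, hd.computes⟩⟩

lemma gen_more {σ : Type} (γ : Fin n → MvPolynomial σ ℚ) {c c' : ℕ} (h : c ≤ c')
    {f : MvPolynomial (Fin n) ℚ} (hf : Phi γ c f ≠ 0) : Phi γ c' f ≠ 0 := by
  obtain ⟨w, hw⟩ := exists_eval_ne_zero hf
  rw [eval_Phi] at hw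
  refine Phi_ne_zero γ c' f (fun i => w (Sum.inl i)) _ ?_ hw
  have h1 : (fun v => eval (fun i => w (Sum.inl i)) (γ v) +
      Pool.Agent.Helper5.gen n c (fun i => w (Sum.inr i)) v -
      eval (fun i => w (Sum.inl i)) (γ v)) =
      Pool.Agent.Helper5.gen n c (fun i => w (Sum.inr i)) := by
    funext v
    ring
  rw [h1]
  exact Pool.Agent.Helper5.G_mono h ⟨_, rfl⟩

/-- a point of the generator -/
theorem exists_seed {K κ Δ w k s : ℕ} {N : ℕ} (T : Fin N → MvPolynomial (Fin n) ℚ)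
    (hT : ∀ i, T i ∈ Submonoid.closure {g | Factor n κ Δ w k s g})
    (htr : ∀ b : Finset (Fin N), AlgebraicIndepOn ℚ T (b : Set (Fin N)) → b.card ≤ K)
    (f : MvPolynomial (Fin n) ℚ) (hf : f ∈ Algebra.adjoin ℚ (Set.range T)) (hf0 : f ≠ 0) :
    ∃ z, eval (Helper5.gen n (seeds K κ Δ w k s) z) f ≠ 0 := by
  have hF : {g : MvPolynomial (Fin n) ℚ | Factor n κ Δ w k s g} = F κ (Prog w k s n) Δ := by
    unfold Factor F
    rw [leaf_eq]
  rw [hF] at hT
  set M := order K κ Δ ((K * k + 1) * w ^ 2 + K * k * s) with hM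
  have h := occ_hit (k := K) (κ := κ) (Δ := Δ) (c := 0)
    (t₀ := (K * k + 1) * w ^ 2 + K * k * s) _ (Prog w k s n) (Prog (w + 1) (k + 1) (s + 1) n)
    (Prog.mono (Nat.le_succ _) (Nat.le_succ _) (Nat.le_succ _)) zero_mem_Prog
    (prog_H2 w k s K) ((prog_H1 (w + 1) (k + 1) (s + 1) Δ M).mono subset_rfl (minors_le _ _ _ _))
    T hT htr f hf hf0
  rw [Nat.zero_add] at h
  obtain ⟨z, hz⟩ := exists_gen_of_Phi (gen_more _ (extra_le κ K _ Δ) h)
  have h2 : seeds K κ Δ w k s = progSeeds (w + 1) (k + 1) (s + 1) Δ M + ((Δ + 1) * M + K) := by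
    unfold seeds progSeeds minor
    rw [Nat.add_assoc]
  rw [h2]
  exact ⟨z, hz⟩

/-- **Theorem** -/
theorem hit {K κ Δ w k s : ℕ} {N m R : ℕ} (lam : Fin N → ℚ)
    (g : Fin N → Fin m → MvPolynomial (Fin n) ℚ) (e : Fin N → Fin m → ℕ)
    (hg : ∀ i j, Factor n κ Δ w k s (g i j))
    (htr : ∀ b : Finset (Fin N),
      AlgebraicIndepOn ℚ (fun i => ∏ j, g i j ^ e i j) (b : Set (Fin N)) → b.card ≤ K)
    (h0 : ∑ i, C (lam i) * ∏ j, g i j ^ e i j ≠ 0) (f : MvPolynomial (Fin n) ℚ)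
    (hf : f ∣ ∑ i, C (lam i) * ∏ j, g i j ^ e i j)
    (hR : f.totalDegree ≤ R ∨
      2 ^ (N + 1) * (n * ∑ i, ∑ j, (g i j).totalDegree) + N ≤ R) :
    ∃ x ∈ LocalABP.points n (seeds K κ Δ w k s) R, eval x f ≠ 0 := by
  classical
  obtain ⟨z, hz⟩ := exists_seed (K := K) (κ := κ) (Δ := Δ) (w := w) (k := k) (s := s)
    (fun i => ∏ j, g i j ^ e i j) (fun i => Submonoid.prod_mem _ fun j _ => Submonoid.pow_mem _
      (Submonoid.subset_closure (show g i j ∈ {g | Factor n κ Δ w k s g} from hg i j)) _)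
    htr (∑ i, C (lam i) * ∏ j, g i j ^ e i j) (by
    refine Subalgebra.sum_mem _ fun i _ => ?_
    rw [← algebraMap_eq, ← Algebra.smul_def]
    exact Subalgebra.smul_mem _ (Algebra.subset_adjoin (Set.mem_range_self i)) _) h0
  obtain ⟨f', hf'⟩ := hf
  have hzf : eval (Helper5.gen n (seeds K κ Δ w k s) z) f ≠ 0 := by
    rw [hf', map_mul] at hz
    exact left_ne_zero_of_mul hz
  rcases hR with hR | hR
  · exact Helper5.hit_grid f R hR _ ⟨z, hzf⟩
  rcases Nat.eq_zero_or_pos n with hn | hn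
  · subst hn
    refine Helper5.hit_grid f R ?_ _ ⟨z, hzf⟩
    have h1 : f.totalDegree = 0 := by
      rw [totalDegree_eq_zero_iff]
      intro m _ x
      exact x.elim0
    omega
  · obtain ⟨x, hx, hx0⟩ := T2.grid_hit (L := n * ∑ i, ∑ j, (g i j).totalDegree) lam g e
      (by rw [mul_comm]) z hz
    refine ⟨x, T2.grid_subset_points hn (Nat.succ_le_succ hR) hx, ?_⟩
    rw [hf', map_mul] at hx0
    exact left_ne_zero_of_mul hx0

end Pool.Agent.Helper7.T3P
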