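import Pool.Agent.Helper8.Occ.Main
import Pool.Agent.Helper7.T3.Local
import Pool.Agent.Helper7.T3.H1

/-!
Leaves computed by programs of constant width.
-/

set_option linter.unusedSectionVars false
set_option linter.unusedSimpArgs false

open MvPolynomial

namespace Pool.Agent.Helper7.T3

open Pool.Agent.Helper8 Pool.Agent.Helper8.Occ VF

variable {n : ℕ}

lemma Comp.pd {w k s d : ℕ} {f : MvPolynomial (Fin n) ℚ} (h : Comp w k s d n f) :
    ∀ L : List (Fin n), Comp (2 ^ L.length * w) k s d n (Occ.pd L f)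
  | [] => by simpa using h
  | v :: L => by
    have h1 := (Comp.pd h L).pderiv v
    rw [Occ.pd_cons, List.length_cons]
    exact h1.mono (by rw [pow_succ]; exact le_of_eq (by ring)) le_rfl le_rfl le_rfl

/-- polynomials computed by programs with layers of any degree -/
def Prog (w k s n : ℕ) : Set (MvPolynomial (Fin n) ℚ) := {g | ∃ d, Comp w k s d n g}

lemma Prog.mono {w k s w' k' s' : ℕ} (hw : w ≤ w') (hk : k ≤ k') (hs : s ≤ s') :
    Prog w k s n ⊆ Prog w' k' s' n := by
  rintro g ⟨d, h⟩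
  exact ⟨d, h.mono hw hk hs le_rfl⟩

lemma zero_mem_Prog {w k s : ℕ} : (0 : MvPolynomial (Fin n) ℚ) ∈ Prog w k s n :=
  ⟨0, (Comp.zero _ _).mono (Nat.zero_le _) (Nat.zero_le _) le_rfl le_rfl⟩

/-- **(H2)** for programs -/
theorem prog_H2 (w k s K : ℕ) :
    H2 (Prog w k s n) (Prog (w + 1) (k + 1) (s + 1) n) K ((K * k + 1) * w ^ 2 + K * k * s) := by
  classical
  rintro g ⟨d, hg⟩ r hr J
  obtain ⟨a, h1, h2⟩ := h2_prog hg hr J
  refine ⟨Finset.univ.image a, ?_, ?_, ?_⟩
  · intro b hb
    obtain ⟨i, _, rfl⟩ := Finset.mem_image.1 hb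
    exact ⟨d + 1, h1 i⟩
  · refine Finset.card_image_le.trans ?_
    rw [Finset.card_univ, Fintype.card_fin]
  · have h3 : ((Finset.univ.image a : Finset (MvPolynomial (Fin n) ℚ)) :
        Set (MvPolynomial (Fin n) ℚ)) = Set.range a := by
      simp
    rw [h3]
    exact h2

/-- the number of seeds for minors -/
def progSeeds (w k s Δ M : ℕ) : ℕ :=
  LocalABP.exponent (M.factorial * (2 ^ (Δ + 1) * M * w + 1)) (M.factorial * (M * k)) s

/-- **(H1)** for programs -/
theorem prog_H1 (w k s Δ M0 : ℕ) :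
    H1 (Helper5.genPoly n (progSeeds w k s Δ M0)) 0 (Dc (Prog w k s n) Δ) M0 := by
  intro M hM a ha J hdet
  apply Phi_of_aeval
  choose L hL b hb hab using ha
  choose d hd using hb
  have h1 := h1_prog (w := 2 ^ Δ * w) (k := k) (s := s) (d := Finset.univ.sup d) M0 M hM a
    (fun i => by
      rw [hab i]
      exact ((hd i).pd (L i)).mono
        (Nat.mul_le_mul_right _ (Nat.pow_le_pow_right (by norm_num) (hL i)))
        le_rfl le_rfl (Finset.le_sup (Finset.mem_univ i))) J hdet
  have h2 : progSeeds w k s Δ M0 = LocalABP.exponent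
      (M0.factorial * (M0 * (2 * (2 ^ Δ * w)) + 1)) (M0.factorial * (M0 * k)) s := by
    unfold progSeeds
    congr 3
    ring
  rw [h2]
  exact h1

end Pool.Agent.Helper7.T3
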