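import Mathlib

/-!
The numbers used in the statements.
-/

namespace Pool.Agent.Helper7.Occ

/-- One step of the recursion. -/
def step (κ Δ M : ℕ) : ℕ := (κ + 1) * (M + Δ + 1) ^ (Δ + 2)

/-- The order of the minors: `Δ` steps, from `(K + 1) * ((K + 1) * κ + 1) ^ Δ * (t + 1)`. -/
def order (K κ Δ t : ℕ) : ℕ := (step κ Δ)^[Δ] ((K + 1) * ((K + 1) * κ + 1) ^ Δ * (t + 1))

end Pool.Agent.Helper7.Occ
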